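import Pool.Agent.Helper18.SU.Goals3

/-! Packet BAL: facts about `dst`, balls are at most half of a nearly regular tournament. -/

set_option autoImplicit false

namespace Pool.Agent.Helper49.SU

open Finset Pool.Agent.Helper18.SU

lemma mem_nb_bal {V : Type} {A : V → V → Prop} {d : Bool} {X : Finset V} {x y : V} :
    y ∈ nb A d X x ↔ y ∈ X ∧ Arc A d x y := by
  simp [nb]

lemma sym_tri {V : Type} [DecidableEq V] (a b c : Finset V) :
    (a \ c).card + (c \ a).card ≤ ((a \ b).card + (b \ a).card) + ((b \ c).card + (c \ b).card) := by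
  have h1 : a \ c ⊆ (a \ b) ∪ (b \ c) := by
    intro z hz
    rw [Finset.mem_sdiff] at hz
    rw [Finset.mem_union, Finset.mem_sdiff, Finset.mem_sdiff]
    by_cases hb : z ∈ b
    · exact Or.inr ⟨hb, hz.2⟩
    · exact Or.inl ⟨hz.1, hb⟩
  have h2 : c \ a ⊆ (c \ b) ∪ (b \ a) := by
    intro z hz
    rw [Finset.mem_sdiff] at hz
    rw [Finset.mem_union, Finset.mem_sdiff, Finset.mem_sdiff]
    by_cases hb : z ∈ b
    · exact Or.inr ⟨hb, hz.2⟩
    · exact Or.inl ⟨hz.1, hb⟩
  have h3 := (Finset.card_le_card h1).trans (Finset.card_union_le _ _)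
  have h4 := (Finset.card_le_card h2).trans (Finset.card_union_le _ _)
  omega

lemma sum_mem_card {V : Type} [DecidableEq V] (X s : Finset V) (hs : s ⊆ X) :
    s.card = ∑ z ∈ X, if z ∈ s then 1 else 0 := by
  rw [← Finset.sum_filter, ← Finset.card_eq_sum_ones]
  congr 1
  ext z
  rw [Finset.mem_filter]
  exact ⟨fun h => ⟨hs h, h⟩, fun h => h.2⟩

lemma sym_sum {V : Type} [DecidableEq V] (X a b c : Finset V) (ha : a ⊆ X) (hb : b ⊆ X)
    (hc : c ⊆ X) :
    ((a \ b).card + (b \ a).card) + ((b \ c).card + (c \ b).card) +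
      ((a \ c).card + (c \ a).card) ≤ 2 * X.card := by
  rw [sum_mem_card X (a \ b) (Finset.sdiff_subset.trans ha),
    sum_mem_card X (b \ a) (Finset.sdiff_subset.trans hb),
    sum_mem_card X (b \ c) (Finset.sdiff_subset.trans hb),
    sum_mem_card X (c \ b) (Finset.sdiff_subset.trans hc),
    sum_mem_card X (a \ c) (Finset.sdiff_subset.trans ha),
    sum_mem_card X (c \ a) (Finset.sdiff_subset.trans hc), ← Finset.sum_add_distrib,
    ← Finset.sum_add_distrib, ← Finset.sum_add_distrib, ← Finset.sum_add_distrib,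
    ← Finset.sum_add_distrib]
  have h : 2 * X.card = ∑ z ∈ X, 2 := by
    rw [Finset.sum_const, smul_eq_mul, mul_comm]
  rw [h]
  refine Finset.sum_le_sum (fun z _ => ?_)
  simp only [Finset.mem_sdiff]
  by_cases h1 : z ∈ a
  · by_cases h2 : z ∈ b
    · by_cases h3 : z ∈ c
      · simp [h1, h2, h3]
      · simp [h1, h2, h3]
    · by_cases h3 : z ∈ c
      · simp [h1, h2, h3]
      · simp [h1, h2, h3]
  · by_cases h2 : z ∈ b
    · by_cases h3 : z ∈ c
      · simp [h1, h2, h3]
      · simp [h1, h2, h3]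
    · by_cases h3 : z ∈ c
      · simp [h1, h2, h3]
      · simp [h1, h2, h3]

theorem DST : DST_stmt := by
  intro V _ A X
  have hs : ∀ x, nb A true X x ⊆ X := fun x z hz => (mem_nb_bal.1 hz).1
  refine ⟨?_, ?_, ?_, ?_, ?_, ?_⟩
  · intro x
    unfold dst
    simp
  · intro x y
    unfold dst
    exact add_comm _ _
  · intro x y z
    unfold dst
    exact sym_tri _ _ _
  · intro x y z
    unfold dst
    exact sym_sum X _ _ _ (hs x) (hs y) (hs z)
  · intro x y
    unfold dst
    have h1 := Finset.card_sdiff_add_card_inter (nb A true X x) (nb A true X y)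
    have h2 := Finset.card_sdiff_add_card_inter (nb A true X y) (nb A true X x)
    rw [Finset.inter_comm] at h2
    omega
  · intro x y
    unfold dst
    have h1 := Finset.card_sdiff_add_card_inter (nb A true X x) (nb A true X y)
    have h2 := Finset.card_sdiff_add_card_inter (nb A true X y) (nb A true X x)
    rw [Finset.inter_comm] at h2
    omega

theorem BAL (h1 : DEG_stmt) : BAL_stmt := by
  intro V _ A hT X g hg x hx ρ
  obtain ⟨-, -, -, -, hD5, -⟩ := h1 V A hT
  set B : Finset V := X.filter (fun y => dst A X x y ≤ ρ) with hB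
  have hBmem : ∀ y ∈ B, y ∈ X ∧ dst A X x y ≤ ρ := fun y hy => Finset.mem_filter.1 hy
  have hQ : (B \ nb A true X x).card ≤ 2 * ρ + 1 := by
    refine hD5 true _ ρ (fun y hy => ?_)
    rw [Finset.mem_sdiff] at hy
    have h2 := (hBmem y hy.1).2
    have h3 : nb A true (B \ nb A true X x) y ⊆ nb A true X y \ nb A true X x := by
      intro z hz
      rw [mem_nb_bal, Finset.mem_sdiff] at hz
      rw [Finset.mem_sdiff]
      exact ⟨mem_nb_bal.2 ⟨(hBmem z hz.1.1).1, hz.2⟩, hz.1.2⟩
    have h4 := Finset.card_le_card h3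
    unfold dst at h2
    omega
  have h5 := Finset.card_sdiff_add_card_inter B (nb A true X x)
  have h6 : (B ∩ nb A true X x).card ≤ (nb A true X x).card :=
    Finset.card_le_card Finset.inter_subset_right
  have h7 := hg x hx
  omega

end Pool.Agent.Helper49.SU
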