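import Pool.Agent.Helper18.SU.Goals2

/-! Packet CI3: core in a set whose vertices have pairwise many common out-neighbours. -/

set_option autoImplicit false

namespace Pool.Agent.Helper49.SU

open Finset Pool.Agent.Helper18.SU

lemma mem_tops' {W : Type} [Fintype W] {par : W → W} {K : Finset W} {c : W} :
    c ∈ tops par K ↔ c ∉ K ∧ par c ∈ K := by
  simp [tops]

lemma mem_nb' {V : Type} {A : V → V → Prop} {d : Bool} {X : Finset V} {x y : V} :
    y ∈ nb A d X x ↔ y ∈ X ∧ Arc A d x y := by
  simp [nb]

theorem CI3 (h1 : SUBT_stmt) (h2 : CAN_stmt) (h3 : TG_stmt) (h4 : DSC_stmt) (_h5 : DEG_stmt)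
    (h6 : GLU_stmt) : CI3_stmt := by
  intro W V _ _ _ _ A r par dep sgn K β m hctx X κ τ hX hdeg hcom hτ hI hJ hτ2
  obtain ⟨hT, hR, hrK, hcl, hβ, hm, hV⟩ := hctx
  obtain ⟨f₀, hf1, hf2, hf3⟩ := h1 W V A hT r par dep hR sgn K X (by omega)
  have hcan := h2 W V A hT r par dep hR sgn (Finset.univ : Finset W)
  obtain ⟨-, -, -, -, -, -, hD7⟩ := h4 W r par dep hR
  obtain ⟨-, -, -, -, hmass⟩ := hD7 K hrK hcl
  have hmass := hmass sgn
  have hb : ∀ c, bsz par (Finset.univ : Finset W) c = (dsc par c).card := by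
    intro c
    unfold bsz dsi
    congr 1
    ext w
    simp
  set O : W → Finset V := fun c => nb A (sgn c) Finset.univ (f₀ (par c)) \ K.image f₀ with hO
  have himg : (K.image f₀).card ≤ K.card := Finset.card_image_le
  have hsub : ∀ S : Finset V, S.card ≤ (S \ K.image f₀).card + K.card := by
    intro S
    have := Finset.le_card_sdiff (K.image f₀) S
    omega
  have htop : ∀ d : Bool, ∀ c ∈ topd par sgn K d, c ∈ tops par K ∧ sgn c = d := by
    intro d c hc
    unfold topd at hc
    exact Finset.mem_filter.1 hc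
  have htops : ∀ c ∈ tops par K, c ∉ K ∧ par c ∈ K := by
    intro c hc
    exact mem_tops'.1 hc
  have hmem : ∀ c ∈ topd par sgn K true ∪ topd par sgn K false, c ∈ tops par K := by
    intro c hc
    rcases Finset.mem_union.1 hc with hc | hc
    · exact (htop _ c hc).1
    · exact (htop _ c hc).1
  have hdisj : Disjoint (topd par sgn K true) (topd par sgn K false) := by
    rw [Finset.disjoint_left]
    intro c hc hc'
    have e1 := (htop _ c hc).2
    have e2 := (htop _ c hc').2
    rw [e1] at e2
    exact absurd e2 (by simp)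
  have hsumI : ∀ d : Bool, ∑ i ∈ topd par sgn K d, bsz par (Finset.univ : Finset W) i =
      mas par sgn K d := by
    intro d
    unfold mas
    exact Finset.sum_congr rfl (fun c _ => hb c)
  have hfX : ∀ c ∈ tops par K, f₀ (par c) ∈ X := fun c hc => hf1 _ (htops c hc).2
  obtain ⟨U, hU⟩ := h3 W V (bsz par Finset.univ) (itm A r par sgn Finset.univ) hcan O
    (topd par sgn K true) (topd par sgn K false) β κ τ hdisj
    (by
      intro c hc
      rw [hb]
      exact hβ c (hmem c hc))
    (by
      intro c hc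
      rw [Finset.sum_union hdisj, hsumI, hsumI]
      have e1 := hdeg _ (hfX c (hmem c hc)) (sgn c)
      have e2 := hsub (nb A (sgn c) Finset.univ (f₀ (par c)))
      have e3 : (O c).card = (nb A (sgn c) Finset.univ (f₀ (par c)) \ K.image f₀).card := rfl
      omega)
    (by
      intro i hi j hj
      have hi' := htop _ i hi
      have hj' := htop _ j hj
      have hx := hfX i hi'.1
      have hy := hfX j hj'.1
      have hsubs : (nb A true Finset.univ (f₀ (par i)) ∩ nb A true Finset.univ (f₀ (par j))) \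
          K.image f₀ ⊆ O i \ O j := by
        intro z hz
        rw [Finset.mem_sdiff, Finset.mem_inter] at hz
        obtain ⟨⟨hz1, hz2⟩, hz3⟩ := hz
        rw [Finset.mem_sdiff]
        simp only [hO]
        rw [Finset.mem_sdiff, Finset.mem_sdiff, hi'.2, hj'.2]
        refine ⟨⟨hz1, hz3⟩, ?_⟩
        rintro ⟨hz4, -⟩
        have e1 : A (f₀ (par j)) z := (mem_nb'.1 hz2).2
        have e2 : A z (f₀ (par j)) := (mem_nb'.1 hz4).2
        exact hT.1 _ _ e1 e2
      refine le_trans ?_ (Finset.card_le_card hsubs)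
      have e2 := hsub (nb A true Finset.univ (f₀ (par i)) ∩ nb A true Finset.univ (f₀ (par j)))
      by_cases hxy : f₀ (par i) = f₀ (par j)
      · have e3 := hdeg _ hx true
        rw [← hxy, Finset.inter_self] at e2 ⊢
        omega
      · have e3 := hcom _ hx _ hy hxy
        omega)
    (by rw [hsumI]; exact hI)
    (by rw [hsumI]; exact hJ)
    hτ2
  obtain ⟨hU1, hU2⟩ := hU
  refine h6 W V A r par dep hR sgn K hrK hcl f₀ ⟨fun v _ => Finset.mem_univ _, hf2, hf3⟩ U U O O
    ⟨fun c hc => hU1 c (Finset.mem_union_left _ hc), fun c hc c' hc' =>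
      hU2 c (Finset.mem_union_left _ hc) c' (Finset.mem_union_left _ hc')⟩
    ⟨fun c hc => hU1 c (Finset.mem_union_right _ hc), fun c hc c' hc' =>
      hU2 c (Finset.mem_union_right _ hc) c' (Finset.mem_union_right _ hc')⟩ ?_ ?_ ?_
  · intro c hc
    simp only [hO]
    rw [(htop _ c hc).2]
  · intro c hc
    simp only [hO]
    rw [(htop _ c hc).2]
  · intro c hc c' hc'
    refine hU2 c (Finset.mem_union_left _ hc) c' (Finset.mem_union_right _ hc') ?_
    rintro rfl
    exact (Finset.disjoint_left.1 hdisj) hc hc'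

end Pool.Agent.Helper49.SU
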