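import Pool.Agent.Helper18.SU.Goals3

/-! Packet OPV3: the root at a vertex of large degrees, sharper form. -/

set_option autoImplicit false

namespace Pool.Agent.Helper49.SU

open Finset Pool.Agent.Helper18.SU

lemma mem_nb_opv3 {V : Type} {A : V → V → Prop} {d : Bool} {X : Finset V} {x y : V} :
    y ∈ nb A d X x ↔ y ∈ X ∧ Arc A d x y := by
  simp [nb]

lemma mem_brn_opv3 {W : Type} [Fintype W] {par : W → W} {sgn : W → Bool} {S : Finset W}
    {c : W} {d : Bool} {w : W} :
    w ∈ brn par sgn S c d ↔ w ∈ S ∧ ∃ c', c' ≠ c ∧ par c' = c ∧ sgn c' = d ∧ w ∈ dsc par c' := by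
  simp [brn]

theorem OPV3 (h1 : STR3_stmt) (h2 : BRN_stmt) (h3 : LF_stmt) (h4 : DSC_stmt) (h5 : DEG_stmt) :
    OPV3_stmt := by
  intro W V _ _ _ _ A hT r u par dep hR sgn LO LI hB s hs
  obtain ⟨hB1, hB2, hB3, hB4, hB5⟩ := hB
  obtain ⟨-, -, -, -, hD5, -, -⟩ := h4 W r par dep hR
  obtain ⟨-, -, -, -, -, -, hG7, hG8⟩ := h5 V A hT
  set S : Finset W := Finset.univ \ (LO ∪ LI) with hS
  obtain ⟨-, hN2, -, hN4⟩ := h2 W r par dep hR sgn S r
  have hdisj : Disjoint LO LI := by
    rw [Finset.disjoint_left]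
    intro c hc hc'
    have e1 := (hB1 c hc).2.2
    have e2 := (hB2 c hc').2.2
    rw [e1] at e2
    exact absurd e2 (by simp)
  have hScard : S.card = s := by
    rw [hS, Finset.card_sdiff_of_subset (Finset.subset_univ _), Finset.card_univ,
      Finset.card_union_of_disjoint hdisj]
    omega
  have hmemS : ∀ w, w ∈ S ↔ w ∉ LO ∧ w ∉ LI := by
    intro w
    rw [hS, Finset.mem_sdiff, Finset.mem_union]
    constructor
    · rintro ⟨-, h⟩
      exact ⟨fun h' => h (Or.inl h'), fun h' => h (Or.inr h')⟩
    · rintro ⟨h, h'⟩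
      exact ⟨Finset.mem_univ _, fun h'' => h''.elim h h'⟩
  have hrS : r ∈ S := (hmemS r).2 ⟨fun h => (hB1 r h).1 rfl, fun h => (hB2 r h).1 rfl⟩
  have huS : u ∈ S := (hmemS u).2 ⟨hB4, hB5⟩
  have hSd : S ⊆ dsc par r := fun w _ => hD5 w
  have hcl : ∀ w ∈ S, w ≠ r → par w ∈ S := fun w _ hw => (hmemS _).2 (hB3 w hw)
  have hN2 := hN2 hSd
  have hsub : ∀ (f : W → V) (T : Finset V), T.card ≤ (T \ S.image f).card + s := by
    intro f T
    have e1 := Finset.le_card_sdiff (S.image f) T
    have e2 : (S.image f).card ≤ S.card := Finset.card_image_le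
    omega
  -- the part of the image in the out-neighbourhood of `z`
  have hout : ∀ (f : W → V) (z : V) (Y : Finset V), f r = z →
      (∀ w ∈ brn par sgn S r true, f w ∈ nb A true Finset.univ z) →
      (∀ w ∈ brn par sgn S r false, f w ∈ nb A false Y z) →
      (nb A true Finset.univ z).card ≤ (nb A true Finset.univ z \ S.image f).card +
        (brn par sgn S r true).card := by
    intro f z Y hz _ hf2
    have e1 := Finset.card_sdiff_add_card_inter (nb A true Finset.univ z) (S.image f)
    have e2 : nb A true Finset.univ z ∩ S.image f ⊆ (brn par sgn S r true).image f := by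
      intro y hy
      rw [Finset.mem_inter, Finset.mem_image] at hy
      obtain ⟨hy1, w, hw, rfl⟩ := hy
      rw [Finset.mem_image]
      by_cases hwr : w = r
      · rw [hwr, hz] at hy1
        exact absurd hy1 (hG8 _ _ _)
      · rcases hN2 w hw hwr with h | h
        · exact ⟨w, h, rfl⟩
        · have h6 : f w ∈ nb A false Finset.univ z :=
            mem_nb_opv3.2 ⟨Finset.mem_univ _, (mem_nb_opv3.1 (hf2 w h)).2⟩
          exact absurd h6 (Finset.disjoint_left.1 (hG7 Finset.univ z) hy1)
    have e3 := (Finset.card_le_card e2).trans Finset.card_image_le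
    omega
  constructor
  · rintro rfl z hz1 hz2
    obtain ⟨f, hf1, hf2, hf3, hf4⟩ := h1 W V A hT u par dep hR sgn S u hrS hSd hcl z
      (nb A true Finset.univ z) (nb A false Finset.univ z)
      (fun y hy => (mem_nb_opv3.1 hy).2) (fun y hy => (mem_nb_opv3.1 hy).2)
      (by omega) (by omega)
    have e1 := hout f z Finset.univ hf2 hf3 hf4
    have e2 : (nb A false Finset.univ z).card ≤ (nb A false Finset.univ z \ S.image f).card +
        (brn par sgn S u false).card := by
      have e1 := Finset.card_sdiff_add_card_inter (nb A false Finset.univ z) (S.image f)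
      have e2 : nb A false Finset.univ z ∩ S.image f ⊆ (brn par sgn S u false).image f := by
        intro y hy
        rw [Finset.mem_inter, Finset.mem_image] at hy
        obtain ⟨hy1, w, hw, rfl⟩ := hy
        rw [Finset.mem_image]
        by_cases hwr : w = u
        · rw [hwr, hf2] at hy1
          exact absurd hy1 (hG8 _ _ _)
        · rcases hN2 w hw hwr with h | h
          · exact absurd hy1 (Finset.disjoint_left.1 (hG7 Finset.univ z) (hf3 w h))
          · exact ⟨w, h, rfl⟩
      have e3 := (Finset.card_le_card e2).trans Finset.card_image_le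
      omega
    refine h3 W V A u u par dep hR sgn LO LI ⟨hB1, hB2, hB3, hB4, hB5⟩ f
      ⟨fun v _ => Finset.mem_univ _, hf1.2.1, hf1.2.2⟩ ?_ ?_ ?_
    · rw [← hS, hf2]
      omega
    · rw [← hS, hf2]
      omega
    · rw [← hS, hf2, Finset.card_union_of_disjoint]
      · omega
      · exact (hG7 Finset.univ z).mono Finset.sdiff_subset Finset.sdiff_subset
  · intro c' hc1 hc2 hc3 hc4 z Y hz1 hz2 hY
    obtain ⟨f, hf1, hf2, hf3, hf4⟩ := h1 W V A hT r par dep hR sgn S r hrS hSd hcl z
      (nb A true Finset.univ z) (nb A false Y z)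
      (fun y hy => (mem_nb_opv3.1 hy).2) (fun y hy => (mem_nb_opv3.1 hy).2)
      (by omega) (by omega)
    have hfu : f u ∈ Y :=
      (mem_nb_opv3.1 (hf4 u (mem_brn_opv3.2 ⟨huS, c', hc1, hc2, hc3, hc4⟩))).1
    have e1 := hout f z Y hf2 hf3 hf4
    have e2 := hsub f (nb A false Finset.univ (f u))
    have e3 := hY _ hfu
    refine h3 W V A r u par dep hR sgn LO LI ⟨hB1, hB2, hB3, hB4, hB5⟩ f
      ⟨fun v _ => Finset.mem_univ _, hf1.2.1, hf1.2.2⟩ ?_ ?_ ?_
    · rw [← hS, hf2]
      omega
    · rw [← hS]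
      omega
    · rw [← hS]
      refine le_trans ?_ (Finset.card_le_card Finset.subset_union_right)
      omega

end Pool.Agent.Helper49.SU
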