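import Pool.Agent.Helper18.SU.Goals2

/-! Packet OPV: the root at a vertex of large degrees. -/

set_option autoImplicit false

namespace Pool.Agent.Helper49.SU

open Finset Pool.Agent.Helper18.SU

lemma mem_nb_opv {V : Type} {A : V → V → Prop} {d : Bool} {X : Finset V} {x y : V} :
    y ∈ nb A d X x ↔ y ∈ X ∧ Arc A d x y := by
  simp [nb]

theorem OPV (h1 : STAR_stmt) (h2 : LF_stmt) (h3 : DSC_stmt) (h4 : DEG_stmt) : OPV_stmt := by
  intro W V _ _ _ _ A hT r u par dep hR sgn LO LI hB s hs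
  obtain ⟨hB1, hB2, hB3, hB4, hB5⟩ := hB
  obtain ⟨-, -, -, -, hD5, -, -⟩ := h3 W r par dep hR
  obtain ⟨-, -, -, -, -, -, hG7, -⟩ := h4 V A hT
  set S : Finset W := Finset.univ \ (LO ∪ LI) with hS
  have hdisj : Disjoint LO LI := by
    rw [Finset.disjoint_left]
    intro c hc hc'
    have e1 := (hB1 c hc).2.2
    have e2 := (hB2 c hc').2.2
    rw [e1] at e2
    exact absurd e2 (by simp)
  have hScard : S.card = s := by
    rw [hS, Finset.card_sdiff_of_subset (Finset.subset_univ _), Finset.card_univ,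
      Finset.card_union_of_disjoint hdisj]
    omega
  have hmemS : ∀ w, w ∈ S ↔ w ∉ LO ∧ w ∉ LI := by
    intro w
    rw [hS, Finset.mem_sdiff, Finset.mem_union]
    constructor
    · rintro ⟨-, h⟩
      exact ⟨fun h' => h (Or.inl h'), fun h' => h (Or.inr h')⟩
    · rintro ⟨h, h'⟩
      exact ⟨Finset.mem_univ _, fun h'' => h''.elim h h'⟩
  have hrS : r ∈ S := (hmemS r).2 ⟨fun h => (hB1 r h).1 rfl, fun h => (hB2 r h).1 rfl⟩
  have huS : u ∈ S := (hmemS u).2 ⟨hB4, hB5⟩
  have hSd : S ⊆ dsc par r := fun w _ => hD5 w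
  have hcl : ∀ w ∈ S, w ≠ r → par w ∈ S := fun w _ hw => (hmemS _).2 (hB3 w hw)
  have hsub : ∀ (f : W → V) (T : Finset V), T.card ≤ (T \ S.image f).card + s := by
    intro f T
    have e1 := Finset.le_card_sdiff (S.image f) T
    have e2 : (S.image f).card ≤ S.card := Finset.card_image_le
    omega
  constructor
  · rintro rfl z hz1 hz2
    obtain ⟨f, hf1, hf2, -, -⟩ := h1 W V A hT u par dep hR sgn S u hrS hSd hcl z
      (nb A true Finset.univ z) (nb A false Finset.univ z)
      (fun y hy => (mem_nb_opv.1 hy).2) (fun y hy => (mem_nb_opv.1 hy).2)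
      (by omega) (by omega)
    have e1 := hsub f (nb A true Finset.univ z)
    have e2 := hsub f (nb A false Finset.univ z)
    refine h2 W V A u u par dep hR sgn LO LI ⟨hB1, hB2, hB3, hB4, hB5⟩ f
      ⟨fun v _ => Finset.mem_univ _, hf1.2.1, hf1.2.2⟩ ?_ ?_ ?_
    · rw [← hS, hf2]
      omega
    · rw [← hS, hf2]
      omega
    · rw [← hS, hf2, Finset.card_union_of_disjoint]
      · omega
      · exact (hG7 Finset.univ z).mono Finset.sdiff_subset Finset.sdiff_subset
  · intro c' hc1 hc2 hc3 hc4 z Y hz1 hz2 hY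
    obtain ⟨f, hf1, hf2, -, hf4⟩ := h1 W V A hT r par dep hR sgn S r hrS hSd hcl z
      (nb A true Finset.univ z) (nb A false Y z)
      (fun y hy => (mem_nb_opv.1 hy).2) (fun y hy => (mem_nb_opv.1 hy).2)
      (by omega) (by omega)
    have hfu : f u ∈ Y := (mem_nb_opv.1 ((hf4 c' hc1 hc2 u hc4 huS).2 hc3)).1
    have e1 := hsub f (nb A true Finset.univ z)
    have e2 := hsub f (nb A false Finset.univ (f u))
    have e3 := hY _ hfu
    refine h2 W V A r u par dep hR sgn LO LI ⟨hB1, hB2, hB3, hB4, hB5⟩ f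
      ⟨fun v _ => Finset.mem_univ _, hf1.2.1, hf1.2.2⟩ ?_ ?_ ?_
    · rw [← hS, hf2]
      omega
    · rw [← hS]
      omega
    · rw [← hS]
      refine le_trans ?_ (Finset.card_le_card Finset.subset_union_right)
      omega

end Pool.Agent.Helper49.SU
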